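import Mathlib
import Pool.Agent.H15.BU3

set_option autoImplicit false

namespace Pool.Agent.Results.MP_802e1f_co.DiscT

/-- Every `t`-sparse family of 1-Lipschitz set functions has discrepancy at most `t`. -/
theorem result (t m n : ℕ) (f : Fin n → Finset (Fin m) → ℝ)
    (hf : ∀ (i : Fin n) (S : Finset (Fin m)) (g : Fin m), |f i (insert g S) - f i S| ≤ 1)
    (ht : ∀ g : Fin m,
      {i : Fin n | ∃ S : Finset (Fin m), f i S ≠ f i (insert g S)}.ncard ≤ t) :
    ∃ S : Finset (Fin m), ∀ i : Fin n, |f i S - f i Sᶜ| ≤ t :=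
  Pool.Agent.H15.BU.disc_le t m n f hf ht

end Pool.Agent.Results.MP_802e1f_co.DiscT
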